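import Pool.Agent.STC.Main

/-!
# A bound for the supertransitivity by the index and the number of its conjugates above 4

The definitions `SubfactorPlanarAlgebra`, `TL`, `Supertransitive`, `centre`, `FiniteDepth` are in
`Pool.Agent.ST5.Def`.
-/

namespace Pool.Agent.Results.MP_55a5d4_an.ConjugateBound

open Pool.Agent.ST5 Polynomial

/-- Let `β = δ²` be the index of a finite-depth subfactor planar algebra with `δ > 2` and `r` the
number of the conjugates of `β` over `ℚ` that exceed `4`. Then the supertransitivity is less than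
`⌈(10 ^ 19 + 4000 (β - 2)² r) β⌉ ^ 14`; the degree of `β` does not enter. -/
theorem result {T : Type*} [Ring T] [StarRing T] [Algebra ℂ T] [StarModule ℂ T]
    (S : SubfactorPlanarAlgebra T) (hfd : S.FiniteDepth) (hδ : 2 < S.δ) (N : ℕ)
    (hN : S.Supertransitive N) (β : ℝ) (hβ : β = S.δ ^ 2) (r : ℕ)
    (hr : r = {y : ℝ | aeval y (minpoly ℚ β) = 0 ∧ 4 < y}.ncard) :
    N < ⌈(10 ^ 19 + 4000 * (β - 2) ^ 2 * r) * β⌉₊ ^ 14 :=
  Pool.Agent.STC.conjugate_bound S hfd hδ N hN β hβ r hr

end Pool.Agent.Results.MP_55a5d4_an.ConjugateBound
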