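import Pool.Agent.STP.Main

/-!
# Supertransitivity and the prime ideals that do not divide the global dimension

The definitions `SubfactorPlanarAlgebra`, `TL`, `Supertransitive`, `centre`, `FiniteDepth` are in
`Pool.Agent.ST5.Def`, the definitions `integersOf`, `nestedCups`, `IsSimpleEven`, `Iso`,
`IsGlobalDimension` are in `Pool.Agent.STP.Defs`.
-/

namespace Pool.Agent.Results.MP_55a5d4_an.NormBound

open Pool.Agent.ST5

/-- Let `R` be the ring of algebraic integers of the field `ℚ(δ²)` of a finite-depth subfactor
planar algebra with `δ > 2`. The global dimension `D` lies in `R`, and the supertransitivity is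
less than the norm of every maximal ideal of `R` that does not contain `D`. -/
theorem result {T : Type*} [Ring T] [StarRing T] [Algebra ℂ T] [StarModule ℂ T]
    (S : SubfactorPlanarAlgebra T) (hfd : S.FiniteDepth) (hδ : 2 < S.δ) (N : ℕ)
    (hN : S.Supertransitive N) (R : Subring ℝ) (hR : R = integersOf (S.δ ^ 2)) :
    ∃ D : R, (∀ x : ℝ, S.IsGlobalDimension x ↔ x = D) ∧
      ∀ M : Ideal R, M.IsMaximal → D ∉ M → N < Nat.card (R ⧸ M) :=
  Pool.Agent.STP.norm_bound_ring S hfd hδ N hN R hR

end Pool.Agent.Results.MP_55a5d4_an.NormBound
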