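import Pool.Agent.ST5.M.Main

/-!
# An explicit bound for the supertransitivity in terms of the index and of its degree

The definitions (`SubfactorPlanarAlgebra`, `TL`, `Supertransitive`, `centre`, `FiniteDepth`) are in
`Pool.Agent.ST5.Def`.
-/

namespace Pool.Agent.Results.MP_55a5d4_an.PolynomialBound

open Pool.Agent.ST5

/-- The supertransitivity of every finite-depth subfactor planar algebra with `δ > 2` is less than
`⌈10 m δ²⌉ ^ 14`, where `m` is the degree of the index `δ²` over `ℚ`. In particular, for every real
`δ > 2` there is a bound for the supertransitivity of all finite-depth subfactor planar algebras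
with the loop parameter `δ`. -/
theorem result {T : Type*} [Ring T] [StarRing T] [Algebra ℂ T] [StarModule ℂ T]
    (S : SubfactorPlanarAlgebra T) (hfd : S.FiniteDepth) (hδ : 2 < S.δ) (N : ℕ)
    (hN : S.Supertransitive N) :
    N < ⌈10 * (minpoly ℚ (S.δ ^ 2)).natDegree * S.δ ^ 2⌉₊ ^ 14 :=
  supertransitivity_lt S hfd hδ N hN

end Pool.Agent.Results.MP_55a5d4_an.PolynomialBound
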