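import Pool.Agent.ST5.P.Main

/-!
# Supertransitivity of finite-depth subfactor planar algebras of rational index

The definitions (`SubfactorPlanarAlgebra`, `TL`, `Supertransitive`, `centre`, `FiniteDepth`) are in
`Pool.Agent.ST5.Def`.
-/

namespace Pool.Agent.Results.MP_55a5d4_an.RationalIndex

open Pool.Agent.ST5

/-- A finite-depth subfactor planar algebra with rational index `δ ^ 2 > 4` has supertransitivity
at most `5`. -/
theorem result {T : Type*} [Ring T] [StarRing T] [Algebra ℂ T] [StarModule ℂ T]
    (S : SubfactorPlanarAlgebra T) (hfd : S.FiniteDepth) (hδ : 2 < S.δ)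
    (hq : ∃ q : ℚ, S.δ ^ 2 = q) (N : ℕ) (hN : S.Supertransitive N) : N ≤ 5 :=
  S.supertransitivity_le_five hfd hδ hq N hN

end Pool.Agent.Results.MP_55a5d4_an.RationalIndex
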